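import Pool.Agent.N428.Coc.Main

set_option autoImplicit false
open Classical

namespace N428.Coc

open Finset

/-- `0/1` indicator that `b + c + d` is even -/
noncomputable def ev (b c d : Bool) : ℝ :=
  if Even ((if b = true then 1 else 0) + (if c = true then 1 else 0)
    + (if d = true then 1 else 0) : ℕ) then 1 else 0

lemma ev_nonneg (b c d : Bool) : 0 ≤ ev b c d := by
  unfold ev; split_ifs <;> norm_num

lemma ev_le_one (b c d : Bool) : ev b c d ≤ 1 := by
  unfold ev; split_ifs <;> norm_num

lemma ev_add (c d : Bool) : ev true c d + ev false c d = 1 := by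
  unfold ev
  cases c <;> cases d <;> simp <;> decide

/-- the pairs `i < j` -/
abbrev Pr (n : ℕ) := {p : Fin n × Fin n // p.1 < p.2}

/-- the factor of the pair `p` for given types `t` and edge value `b` -/
noncomputable def FF {n : ℕ} (m : ℕ) (ε : ℝ) (t : Fin n → Fin m → Bool) (p : Pr n) (b : Bool) : ℝ :=
  (∑ a : Fin m, ev b (t p.1.1 a) (t p.1.2 a)) / m + ε

lemma FF_nonneg {n m : ℕ} {ε : ℝ} (hε : 0 < ε) (t : Fin n → Fin m → Bool) (p : Pr n) (b : Bool) :
    0 ≤ FF m ε t p b := by
  unfold FF
  have : 0 ≤ (∑ a : Fin m, ev b (t p.1.1 a) (t p.1.2 a)) / m :=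
    div_nonneg (Finset.sum_nonneg fun a _ => ev_nonneg _ _ _) (Nat.cast_nonneg m)
  linarith

lemma FF_sum {n m : ℕ} (hm : 0 < m) {ε : ℝ} (t : Fin n → Fin m → Bool) (p : Pr n) :
    ∑ b : Bool, FF m ε t p b = 1 + 2 * ε := by
  have hm' : (0 : ℝ) < m := by exact_mod_cast hm
  rw [Fintype.sum_bool]
  unfold FF
  have : (∑ a : Fin m, ev true (t p.1.1 a) (t p.1.2 a)) / m
      + (∑ a : Fin m, ev false (t p.1.1 a) (t p.1.2 a)) / m = 1 := by
    rw [← add_div, ← Finset.sum_add_distrib]
    simp only [ev_add, Finset.sum_const, Finset.card_univ, Fintype.card_fin, nsmul_eq_mul, mul_one]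
    exact div_self hm'.ne'
  linarith

/-- the edge indicator of a graph on the pairs `i < j` -/
noncomputable def ee {n : ℕ} (G : SimpleGraph (Fin n)) : Pr n → Bool :=
  fun p => decide (G.Adj p.1.1 p.1.2)

lemma ee_inj {n : ℕ} : Function.Injective (ee (n := n)) := by
  intro G H h
  ext i j
  rcases lt_trichotomy i j with hij | hij | hij
  · have := congrFun h ⟨(i, j), hij⟩
    simpa [ee] using this
  · subst hij; simp
  · have := congrFun h ⟨(j, i), hij⟩
    simp only [ee, decide_eq_decide] at this
    rw [G.adj_comm, H.adj_comm]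
    exact this

lemma one_graph {n m : ℕ} (s : Fin m → Fin n) {ε : ℝ} (hε : 0 < ε) (G : SimpleGraph (Fin n)) :
    ∏ p : Pr n,
      ((∑ a : Fin m, ev (decide (G.Adj p.1.1 p.1.2)) (decide (G.Adj p.1.1 (s a)))
        (decide (G.Adj p.1.2 (s a)))) / m + ε) ≤
    ∑ t : Fin n → Fin m → Bool, ∏ p : Pr n, FF m ε t p (ee G p) := by
  have h : ∀ T : Fin n → Fin m → Bool, ∏ p : Pr n, FF m ε T p (ee G p) ≤
      ∑ t : Fin n → Fin m → Bool, ∏ p : Pr n, FF m ε t p (ee G p) := by
    intro T
    apply Finset.single_le_sum (f := fun t : Fin n → Fin m → Bool => ∏ p : Pr n, FF m ε t p (ee G p))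
    · intro t _
      exact Finset.prod_nonneg fun p _ => FF_nonneg hε t p _
    · exact Finset.mem_univ T
  refine le_trans (le_of_eq ?_) (h (fun (i : Fin n) (a : Fin m) => decide (G.Adj i (s a))))
  apply Finset.prod_congr rfl
  intro p _
  unfold FF ee
  rfl

/-- bound for a fixed sample -/
lemma sum_sample {n m : ℕ} (hm : 0 < m) (s : Fin m → Fin n) {ε : ℝ} (hε : 0 < ε) :
    ∑ G : SimpleGraph (Fin n), ∏ p : Pr n,
      ((∑ a : Fin m, ev (decide (G.Adj p.1.1 p.1.2)) (decide (G.Adj p.1.1 (s a)))
        (decide (G.Adj p.1.2 (s a)))) / m + ε) ≤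
      (2 : ℝ) ^ (m * n) * (1 + 2 * ε) ^ (Fintype.card (Pr n)) := by
  calc ∑ G : SimpleGraph (Fin n), ∏ p : Pr n,
        ((∑ a : Fin m, ev (decide (G.Adj p.1.1 p.1.2)) (decide (G.Adj p.1.1 (s a)))
          (decide (G.Adj p.1.2 (s a)))) / m + ε)
      ≤ ∑ G : SimpleGraph (Fin n), ∑ t : Fin n → Fin m → Bool, ∏ p : Pr n, FF m ε t p (ee G p) := by
        apply Finset.sum_le_sum
        intro G _
        exact one_graph s hε G
    _ = ∑ t : Fin n → Fin m → Bool, ∑ G : SimpleGraph (Fin n), ∏ p : Pr n, FF m ε t p (ee G p) :=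
        Finset.sum_comm
    _ ≤ ∑ t : Fin n → Fin m → Bool, (1 + 2 * ε) ^ (Fintype.card (Pr n)) := by
        apply Finset.sum_le_sum
        intro t _
        calc ∑ G : SimpleGraph (Fin n), ∏ p : Pr n, FF m ε t p (ee G p)
            = ∑ x ∈ Finset.univ.image (ee (n := n)), ∏ p : Pr n, FF m ε t p (x p) := by
              rw [Finset.sum_image fun a _ b _ h => ee_inj h]
          _ ≤ ∑ x : Pr n → Bool, ∏ p : Pr n, FF m ε t p (x p) := by
              apply Finset.sum_le_sum_of_subset_of_nonneg (Finset.subset_univ _)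
              intro x _ _
              exact Finset.prod_nonneg fun p _ => FF_nonneg hε t p _
          _ = ∏ p : Pr n, ∑ b : Bool, FF m ε t p b := by
              rw [Finset.prod_univ_sum, Fintype.piFinset_univ]
          _ = (1 + 2 * ε) ^ (Fintype.card (Pr n)) := by
              simp only [FF_sum hm]
              rw [Finset.prod_const, Finset.card_univ]
    _ = (2 : ℝ) ^ (m * n) * (1 + 2 * ε) ^ (Fintype.card (Pr n)) := by
        rw [Finset.sum_const, Finset.card_univ, nsmul_eq_mul]
        congr 1
        rw [Fintype.card_fun, Fintype.card_fun, Fintype.card_bool, Fintype.card_fin,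
          Fintype.card_fin]
        push_cast
        rw [pow_mul]

lemma card_Pr_le (n : ℕ) : Fintype.card (Pr n) ≤ n ^ 2 := by
  calc Fintype.card (Pr n) ≤ Fintype.card (Fin n × Fin n) := Fintype.card_subtype_le _
    _ = n ^ 2 := by simp [sq]

/-- the fraction over the other vertices is at most the fraction over all vertices -/
lemma frac_le {n : ℕ} (hn : 3 ≤ n) (G : SimpleGraph (Fin n)) {i j : Fin n} (hij : i < j) :
    (((Finset.univ.filter (fun k : Fin n => k ≠ i ∧ k ≠ j ∧
                Even ((if G.Adj i j then 1 else 0) + (if G.Adj i k then 1 else 0)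
                  + (if G.Adj j k then 1 else 0) : ℕ))).card : ℝ) / ((n : ℝ) - 2)) ≤
      (∑ k : Fin n, ev (decide (G.Adj i j)) (decide (G.Adj i k)) (decide (G.Adj j k))) / n := by
  set S := Finset.univ.filter (fun k : Fin n => k ≠ i ∧ k ≠ j ∧
                Even ((if G.Adj i j then 1 else 0) + (if G.Adj i k then 1 else 0)
                  + (if G.Adj j k then 1 else 0) : ℕ)) with hS
  set T := Finset.univ.filter (fun k : Fin n => 
                Even ((if G.Adj i j then 1 else 0) + (if G.Adj i k then 1 else 0)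
                  + (if G.Adj j k then 1 else 0) : ℕ)) with hT
  have hsum : ∑ k : Fin n, ev (decide (G.Adj i j)) (decide (G.Adj i k)) (decide (G.Adj j k))
      = T.card := by
    rw [hT, Finset.card_filter]
    push_cast
    apply Finset.sum_congr rfl
    intro k _
    unfold ev
    simp only [decide_eq_true_eq]
  have hi : i ∈ T := by
    rw [hT]
    simp only [Finset.mem_filter, Finset.mem_univ, true_and]
    have h1 : ¬ G.Adj i i := G.irrefl
    by_cases h : G.Adj i j
    · have h' : G.Adj j i := h.symm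
      simp [h, h']
    · have h' : ¬ G.Adj j i := fun h'' => h h''.symm
      simp [h, h']
  have hj : j ∈ T := by
    rw [hT]
    simp only [Finset.mem_filter, Finset.mem_univ, true_and]
    have h1 : ¬ G.Adj j j := G.irrefl
    by_cases h : G.Adj i j
    · simp [h]
    · simp [h]
  have hST : insert i (insert j S) ⊆ T := by
    intro k hk
    rw [Finset.mem_insert, Finset.mem_insert] at hk
    rcases hk with rfl | rfl | hk
    · exact hi
    · exact hj
    · rw [hS, Finset.mem_filter] at hk
      rw [hT, Finset.mem_filter]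
      exact ⟨hk.1, hk.2.2.2⟩
  have hcard : S.card + 2 ≤ T.card := by
    have h1 : (insert i (insert j S)).card = S.card + 2 := by
      rw [Finset.card_insert_of_notMem, Finset.card_insert_of_notMem]
      · rw [hS]; simp
      · rw [Finset.mem_insert, not_or]
        exact ⟨hij.ne, by rw [hS]; simp⟩
    rw [← h1]
    exact Finset.card_le_card hST
  have hTn : T.card ≤ n := by
    calc T.card ≤ (Finset.univ : Finset (Fin n)).card := Finset.card_le_univ _
      _ = n := by simp
  rw [hsum]
  have hn' : (3 : ℝ) ≤ n := by exact_mod_cast hn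
  rw [div_le_div_iff₀ (by linarith) (by linarith)]
  have c1 : (S.card : ℝ) + 2 ≤ T.card := by exact_mod_cast hcard
  have c2 : (T.card : ℝ) ≤ n := by exact_mod_cast hTn
  nlinarith

end N428.Coc
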