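import Pool.Agent.N428.Coc.Count

set_option autoImplicit false
open Classical

namespace N428.Coc

open Finset

lemma prod_pairs {n : ℕ} (F : Fin n → Fin n → ℝ) :
    ∏ i : Fin n, ∏ j : Fin n, (if i < j then F i j else 1) = ∏ p : Pr n, F p.1.1 p.1.2 := by
  rw [← Fintype.prod_prod_type' (fun i j => if i < j then F i j else (1 : ℝ))]
  rw [← Finset.prod_filter (fun p : Fin n × Fin n => p.1 < p.2) (fun p => F p.1 p.2)]
  rw [Finset.prod_subtype (Finset.univ.filter fun p : Fin n × Fin n => p.1 < p.2)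
    (p := fun p : Fin n × Fin n => p.1 < p.2) (by simp) (fun p => F p.1 p.2)]

/-- the master bound, for every sample size `m` and every `ε` -/
lemma master {n m : ℕ} (hn : 3 ≤ n) (hm : 0 < m) {ε : ℝ} (hε : 0 < ε) :
    (∑ G : SimpleGraph (Fin n),
        ∏ i : Fin n, ∏ j : Fin n,
          (if i < j then
            (((Finset.univ.filter (fun k : Fin n => k ≠ i ∧ k ≠ j ∧
                Even ((if G.Adj i j then 1 else 0) + (if G.Adj i k then 1 else 0)
                  + (if G.Adj j k then 1 else 0) : ℕ))).card : ℝ) / ((n : ℝ) - 2))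
          else 1)) ≤
      Real.exp (Fintype.card (Pr n) / (m * ε ^ 2)) *
        ((n : ℝ) ^ m * ((2 : ℝ) ^ (m * n) * (1 + 2 * ε) ^ (Fintype.card (Pr n)))) := by
  have hn3 : (3 : ℝ) ≤ n := by exact_mod_cast hn
  have hm' : (0 : ℝ) < m := by exact_mod_cast hm
  have step1 : ∀ G : SimpleGraph (Fin n),
      (∏ i : Fin n, ∏ j : Fin n,
          (if i < j then
            (((Finset.univ.filter (fun k : Fin n => k ≠ i ∧ k ≠ j ∧
                Even ((if G.Adj i j then 1 else 0) + (if G.Adj i k then 1 else 0)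
                  + (if G.Adj j k then 1 else 0) : ℕ))).card : ℝ) / ((n : ℝ) - 2))
          else 1)) ≤ ∏ p : Pr n, ((∑ k : Fin n, ev (decide (G.Adj p.1.1 p.1.2))
            (decide (G.Adj p.1.1 k)) (decide (G.Adj p.1.2 k))) / n + ε) := by
    intro G
    rw [prod_pairs]
    apply Finset.prod_le_prod
    · intro p _
      exact div_nonneg (Nat.cast_nonneg _) (by linarith)
    · intro p _
      have := frac_le hn G p.2
      linarith
  have step2 : ∀ G : SimpleGraph (Fin n),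
      ∏ p : Pr n, ((∑ k : Fin n, ev (decide (G.Adj p.1.1 p.1.2))
            (decide (G.Adj p.1.1 k)) (decide (G.Adj p.1.2 k))) / n + ε) ≤
      ∑ s : Fin m → Fin n, Real.exp (Fintype.card (Pr n) / (m * ε ^ 2)) * ∏ p : Pr n,
      ((∑ a : Fin m, ev (decide (G.Adj p.1.1 p.1.2)) (decide (G.Adj p.1.1 (s a)))
        (decide (G.Adj p.1.2 (s a)))) / m + ε) := by
    intro G
    obtain ⟨s, hs⟩ := exists_sample (Finset.univ : Finset (Pr n)) (n := n) (m := m)
      (by omega) hm (fun p k => ev (decide (G.Adj p.1.1 p.1.2))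
            (decide (G.Adj p.1.1 k)) (decide (G.Adj p.1.2 k)))
      (fun p k => ev_nonneg _ _ _) (fun p k => ev_le_one _ _ _) hε
    rw [Finset.card_univ] at hs
    refine le_trans hs ?_
    apply Finset.single_le_sum (f := fun s : Fin m → Fin n =>
      Real.exp (Fintype.card (Pr n) / (m * ε ^ 2)) * ∏ p : Pr n,
      ((∑ a : Fin m, ev (decide (G.Adj p.1.1 p.1.2)) (decide (G.Adj p.1.1 (s a)))
        (decide (G.Adj p.1.2 (s a)))) / m + ε))
    · intro s _
      apply mul_nonneg (Real.exp_pos _).le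
      apply Finset.prod_nonneg
      intro p _
      have : 0 ≤ (∑ a : Fin m, ev (decide (G.Adj p.1.1 p.1.2)) (decide (G.Adj p.1.1 (s a)))
        (decide (G.Adj p.1.2 (s a)))) / m :=
        div_nonneg (Finset.sum_nonneg fun a _ => ev_nonneg _ _ _) hm'.le
      linarith
    · exact Finset.mem_univ s
  calc _ ≤ ∑ G : SimpleGraph (Fin n), ∑ s : Fin m → Fin n,
        Real.exp (Fintype.card (Pr n) / (m * ε ^ 2)) * ∏ p : Pr n,
      ((∑ a : Fin m, ev (decide (G.Adj p.1.1 p.1.2)) (decide (G.Adj p.1.1 (s a)))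
        (decide (G.Adj p.1.2 (s a)))) / m + ε) :=
        Finset.sum_le_sum fun G _ => le_trans (step1 G) (step2 G)
    _ = ∑ s : Fin m → Fin n, ∑ G : SimpleGraph (Fin n),
        Real.exp (Fintype.card (Pr n) / (m * ε ^ 2)) * ∏ p : Pr n,
      ((∑ a : Fin m, ev (decide (G.Adj p.1.1 p.1.2)) (decide (G.Adj p.1.1 (s a)))
        (decide (G.Adj p.1.2 (s a)))) / m + ε) := Finset.sum_comm
    _ ≤ ∑ s : Fin m → Fin n, Real.exp (Fintype.card (Pr n) / (m * ε ^ 2)) *
        ((2 : ℝ) ^ (m * n) * (1 + 2 * ε) ^ (Fintype.card (Pr n))) := by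
        apply Finset.sum_le_sum
        intro s _
        rw [← Finset.mul_sum]
        exact mul_le_mul_of_nonneg_left (sum_sample hm s hε) (Real.exp_pos _).le
    _ = _ := by
        rw [Finset.sum_const, Finset.card_univ, nsmul_eq_mul, Fintype.card_fun, Fintype.card_fin,
          Fintype.card_fin]
        push_cast
        ring

theorem main (ε₀ : ℝ) (h₀ : 0 < ε₀) : ∃ N : ℕ, ∀ n : ℕ, N ≤ n →
      (∑ G : SimpleGraph (Fin n),
        ∏ i : Fin n, ∏ j : Fin n,
          (if i < j then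
            (((Finset.univ.filter (fun k : Fin n => k ≠ i ∧ k ≠ j ∧
                Even ((if G.Adj i j then 1 else 0) + (if G.Adj i k then 1 else 0)
                  + (if G.Adj j k then 1 else 0) : ℕ))).card : ℝ) / ((n : ℝ) - 2))
          else 1)) ≤ (2 : ℝ) ^ (ε₀ * (n : ℝ) ^ 2) := by
  have hL : 0 < Real.log 2 := Real.log_pos (by norm_num)
  have hL1 : Real.log 2 ≤ 1 := by
    have := Real.log_two_lt_d9; linarith
  set η : ℝ := ε₀ * Real.log 2 with hη
  have hηpos : 0 < η := mul_pos h₀ hL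
  set ε : ℝ := η / 8 with hε
  have hεpos : 0 < ε := by positivity
  obtain ⟨m, hm⟩ := exists_nat_gt (4 / (η * ε ^ 2))
  have hmpos' : (0 : ℝ) < m := lt_trans (by positivity) hm
  have hmpos : 0 < m := by exact_mod_cast hmpos'
  obtain ⟨N, hN⟩ := exists_nat_gt (4 * m / η)
  refine ⟨N + 3, fun n hn => ?_⟩
  have hn3 : 3 ≤ n := by omega
  have hn3' : (3 : ℝ) ≤ n := by exact_mod_cast hn3
  have hnN : (N : ℝ) ≤ n := by
    have : N ≤ n := by omega
    exact_mod_cast this
  have hnpos : (0 : ℝ) < n := by linarith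
  refine le_trans (master hn3 hmpos hεpos) ?_
  have hcard : (Fintype.card (Pr n) : ℝ) ≤ (n : ℝ) ^ 2 := by
    exact_mod_cast card_Pr_le n
  have e1 : Real.exp (Fintype.card (Pr n) / (m * ε ^ 2)) ≤ Real.exp (η / 4 * (n : ℝ) ^ 2) := by
    apply Real.exp_le_exp.mpr
    rw [div_le_iff₀ (by positivity)]
    have h4 : 4 < m * (η * ε ^ 2) := by
      rw [div_lt_iff₀ (by positivity)] at hm
      exact hm
    have : (1 : ℝ) ≤ η / 4 * (m * ε ^ 2) := by nlinarith
    calc (Fintype.card (Pr n) : ℝ) ≤ (n : ℝ) ^ 2 := hcard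
      _ = (n : ℝ) ^ 2 * 1 := by ring
      _ ≤ (n : ℝ) ^ 2 * (η / 4 * (m * ε ^ 2)) := by
          apply mul_le_mul_of_nonneg_left this (by positivity)
      _ = η / 4 * (n : ℝ) ^ 2 * (m * ε ^ 2) := by ring
  have e2 : (n : ℝ) ^ m ≤ Real.exp (m * n) := by
    have h1 : (n : ℝ) ≤ Real.exp n := by
      have := Real.add_one_le_exp (n : ℝ); linarith
    calc (n : ℝ) ^ m ≤ (Real.exp n) ^ m := pow_le_pow_left₀ hnpos.le h1 m
      _ = Real.exp (m * n) := by rw [← Real.exp_nat_mul]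
  have e3 : (2 : ℝ) ^ (m * n) ≤ Real.exp (m * n) := by
    have h1 : (2 : ℝ) ≤ Real.exp 1 := by
      have := Real.add_one_le_exp (1 : ℝ); linarith
    calc (2 : ℝ) ^ (m * n) ≤ (Real.exp 1) ^ (m * n) := pow_le_pow_left₀ (by norm_num) h1 _
      _ = Real.exp (m * n) := by
          rw [← Real.exp_nat_mul]; push_cast; ring_nf
  have e4 : (1 + 2 * ε) ^ (Fintype.card (Pr n)) ≤ Real.exp (η / 4 * (n : ℝ) ^ 2) := by
    have h1 : 1 + 2 * ε ≤ Real.exp (2 * ε) := by
      have := Real.add_one_le_exp (2 * ε); linarith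
    calc (1 + 2 * ε) ^ (Fintype.card (Pr n)) ≤ (Real.exp (2 * ε)) ^ (Fintype.card (Pr n)) :=
          pow_le_pow_left₀ (by positivity) h1 _
      _ = Real.exp (Fintype.card (Pr n) * (2 * ε)) := by rw [← Real.exp_nat_mul]
      _ ≤ Real.exp (η / 4 * (n : ℝ) ^ 2) := by
          apply Real.exp_le_exp.mpr
          rw [hε]
          nlinarith
  have e5 : (m : ℝ) * n ≤ η / 4 * (n : ℝ) ^ 2 := by
    have : 4 * (m : ℝ) < η * n := by
      rw [div_lt_iff₀ hηpos] at hN
      nlinarith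
    nlinarith
  calc Real.exp (Fintype.card (Pr n) / (m * ε ^ 2)) *
        ((n : ℝ) ^ m * ((2 : ℝ) ^ (m * n) * (1 + 2 * ε) ^ (Fintype.card (Pr n))))
      ≤ Real.exp (η / 4 * (n : ℝ) ^ 2) * (Real.exp (m * n) *
          (Real.exp (m * n) * Real.exp (η / 4 * (n : ℝ) ^ 2))) := by
        gcongr
    _ = Real.exp (η / 4 * (n : ℝ) ^ 2 + (m * n + (m * n + η / 4 * (n : ℝ) ^ 2))) := by
        rw [Real.exp_add, Real.exp_add, Real.exp_add]
    _ ≤ Real.exp (η * (n : ℝ) ^ 2) := by
        apply Real.exp_le_exp.mpr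
        linarith
    _ = (2 : ℝ) ^ (ε₀ * (n : ℝ) ^ 2) := by
        rw [Real.rpow_def_of_pos (by norm_num)]
        congr 1
        rw [hη]; ring

end N428.Coc
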