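import Mathlib

set_option autoImplicit false

namespace N428.Coc

open Finset

lemma sum_zero {n m : ℕ} (Y : Fin n → ℝ) (hY : ∑ k, Y k = 0) (a : Fin m) :
    ∑ s : Fin m → Fin n, Y (s a) = 0 := by
  have h := Finset.prod_univ_sum (fun _ : Fin m => (Finset.univ : Finset (Fin n)))
    (fun c k => if c = a then Y k else (1 : ℝ))
  rw [Fintype.piFinset_univ] at h
  have h1 : ∏ c : Fin m, ∑ k : Fin n, (if c = a then Y k else (1:ℝ)) = 0 := by
    apply Finset.prod_eq_zero (Finset.mem_univ a)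
    simpa using hY
  have h2 : ∀ s : Fin m → Fin n, ∏ c, (if c = a then Y (s c) else (1:ℝ)) = Y (s a) := by
    intro s
    rw [Fintype.prod_eq_single a]
    · simp
    · intro c hc
      simp [hc]
  rw [h1] at h
  simp only [h2] at h
  exact h.symm

lemma sum_cross {n m : ℕ} (Y : Fin n → ℝ) (hY : ∑ k, Y k = 0) {a b : Fin m} (hab : a ≠ b) :
    ∑ s : Fin m → Fin n, Y (s a) * Y (s b) = 0 := by
  have h := Finset.prod_univ_sum (fun _ : Fin m => (Finset.univ : Finset (Fin n)))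
    (fun c k => if c = a then Y k else if c = b then Y k else (1 : ℝ))
  rw [Fintype.piFinset_univ] at h
  have h1 : ∏ c : Fin m, ∑ k : Fin n, (if c = a then Y k else if c = b then Y k else (1:ℝ)) = 0 := by
    apply Finset.prod_eq_zero (Finset.mem_univ a)
    simpa using hY
  have h2 : ∀ s : Fin m → Fin n,
      ∏ c, (if c = a then Y (s c) else if c = b then Y (s c) else (1:ℝ)) = Y (s a) * Y (s b) := by
    intro s
    rw [Fintype.prod_eq_mul a b hab]
    · simp [hab.symm]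
    · rintro c ⟨hc, hc'⟩
      simp [hc, hc']
  rw [h1] at h
  simp only [h2] at h
  exact h.symm

lemma second {n m : ℕ} (Y : Fin n → ℝ) (hY : ∑ k, Y k = 0) (hb : ∀ k, Y k ^ 2 ≤ 1) :
    ∑ s : Fin m → Fin n, (∑ a, Y (s a)) ^ 2 ≤ m * (n : ℝ) ^ m := by
  have h1 : ∀ s : Fin m → Fin n, (∑ a, Y (s a)) ^ 2 = ∑ a, ∑ b, Y (s a) * Y (s b) := by
    intro s
    rw [sq, Finset.sum_mul_sum]
  simp only [h1]
  rw [Finset.sum_comm]
  have h2 : ∀ a : Fin m, ∑ s : Fin m → Fin n, ∑ b, Y (s a) * Y (s b) ≤ (n : ℝ) ^ m := by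
    intro a
    rw [Finset.sum_comm]
    rw [Fintype.sum_eq_single a]
    · calc ∑ s : Fin m → Fin n, Y (s a) * Y (s a) ≤ ∑ s : Fin m → Fin n, (1 : ℝ) := by
            apply Finset.sum_le_sum
            intro s _
            have := hb (s a)
            nlinarith
        _ = (n : ℝ) ^ m := by
            simp [Fintype.card_fun]
    · intro b hb'
      exact sum_cross Y hY (Ne.symm hb')
  calc ∑ a : Fin m, ∑ s : Fin m → Fin n, ∑ b, Y (s a) * Y (s b)
      ≤ ∑ a : Fin m, (n : ℝ) ^ m := Finset.sum_le_sum fun a _ => h2 a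
    _ = m * (n : ℝ) ^ m := by simp

lemma log_ineq {u v ε : ℝ} (hε : 0 < ε) (hu : ε ≤ u) (hv : ε ≤ v) :
    Real.log v + (u - v) / v - (u - v) ^ 2 / ε ^ 2 ≤ Real.log u := by
  have hu0 : 0 < u := lt_of_lt_of_le hε hu
  have hv0 : 0 < v := lt_of_lt_of_le hε hv
  have h1 := Real.one_sub_inv_le_log_of_pos (div_pos hu0 hv0)
  rw [Real.log_div hu0.ne' hv0.ne'] at h1
  have h2 : 1 - (u / v)⁻¹ = (u - v) / v - (u - v) ^ 2 / (u * v) := by
    field_simp
    ring
  have h3 : (u - v) ^ 2 / (u * v) ≤ (u - v) ^ 2 / ε ^ 2 := by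
    apply div_le_div_of_nonneg_left (sq_nonneg _) (by positivity)
    nlinarith
  linarith

/-- averaging: some sample of size `m` approximates all the means well on log average -/
lemma exists_sample {ι : Type*} (P : Finset ι) {n m : ℕ} (hn : 0 < n) (hm : 0 < m)
    (X : ι → Fin n → ℝ) (h0 : ∀ p k, 0 ≤ X p k) (h1 : ∀ p k, X p k ≤ 1) {ε : ℝ} (hε : 0 < ε) :
    ∃ s : Fin m → Fin n,
      ∏ p ∈ P, ((∑ k, X p k) / n + ε) ≤
        Real.exp (P.card / (m * ε ^ 2)) * ∏ p ∈ P, ((∑ a, X p (s a)) / m + ε) := by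
  have hn' : (0 : ℝ) < n := by exact_mod_cast hn
  have hm' : (0 : ℝ) < m := by exact_mod_cast hm
  have hv : ∀ p, ε ≤ (∑ k, X p k) / n + ε := by
    intro p
    have : 0 ≤ (∑ k, X p k) / n := div_nonneg (Finset.sum_nonneg fun k _ => h0 p k) hn'.le
    linarith
  have hu : ∀ p (s : Fin m → Fin n), ε ≤ (∑ a, X p (s a)) / m + ε := by
    intro p s
    have : 0 ≤ (∑ a, X p (s a)) / m := div_nonneg (Finset.sum_nonneg fun k _ => h0 p _) hm'.le
    linarith
  have key : ∀ p, ∑ s : Fin m → Fin n, (Real.log ((∑ k, X p k) / n + ε) - 1 / (m * ε ^ 2)) ≤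
      ∑ s : Fin m → Fin n, Real.log ((∑ a, X p (s a)) / m + ε) := by
    intro p
    set v : ℝ := (∑ k, X p k) / n with hvdef
    set Y : Fin n → ℝ := fun k => X p k - v with hY
    have hv0 : 0 ≤ v := by
      rw [hvdef]; exact div_nonneg (Finset.sum_nonneg fun k _ => h0 p k) hn'.le
    have hv1 : v ≤ 1 := by
      rw [hvdef, div_le_one hn']
      calc ∑ k, X p k ≤ ∑ k : Fin n, (1 : ℝ) := Finset.sum_le_sum fun k _ => h1 p k
        _ = n := by simp
    have hYsum : ∑ k, Y k = 0 := by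
      simp only [hY, Finset.sum_sub_distrib, Finset.sum_const, Finset.card_univ, Fintype.card_fin,
        nsmul_eq_mul, hvdef]
      field_simp
      ring
    have hYb : ∀ k, Y k ^ 2 ≤ 1 := by
      intro k
      have a1 := h0 p k
      have a2 := h1 p k
      simp only [hY]
      nlinarith
    have hudiff : ∀ s : Fin m → Fin n,
        ((∑ a, X p (s a)) / m + ε) - (v + ε) = (∑ a, Y (s a)) / m := by
      intro s
      simp only [hY, Finset.sum_sub_distrib, Finset.sum_const, Finset.card_univ, Fintype.card_fin,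
        nsmul_eq_mul]
      field_simp
      ring
    have step : ∀ s : Fin m → Fin n,
        Real.log (v + ε) + ((∑ a, Y (s a)) / m) / (v + ε) - ((∑ a, Y (s a)) / m) ^ 2 / ε ^ 2 ≤
        Real.log ((∑ a, X p (s a)) / m + ε) := by
      intro s
      have := log_ineq hε (hu p s) (hv p)
      rw [hudiff s] at this
      exact this
    have hlin : ∑ s : Fin m → Fin n, ((∑ a, Y (s a)) / m) / (v + ε) = 0 := by
      simp only [div_div]
      rw [← Finset.sum_div, Finset.sum_comm]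
      rw [Finset.sum_eq_zero (fun a _ => sum_zero Y hYsum a)]
      simp
    have hquad : ∑ s : Fin m → Fin n, ((∑ a, Y (s a)) / m) ^ 2 / ε ^ 2 ≤
        ∑ s : Fin m → Fin n, 1 / (m * ε ^ 2) := by
      have e1 : ∀ s : Fin m → Fin n, ((∑ a, Y (s a)) / m) ^ 2 / ε ^ 2 =
          (∑ a, Y (s a)) ^ 2 / (m ^ 2 * ε ^ 2) := by
        intro s
        field_simp
      simp only [e1]
      rw [← Finset.sum_div]
      have := second (m := m) Y hYsum hYb
      rw [Finset.sum_const, Finset.card_univ, nsmul_eq_mul, Fintype.card_fun, Fintype.card_fin,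
        Fintype.card_fin]
      push_cast
      rw [div_le_iff₀ (by positivity)]
      calc ∑ s : Fin m → Fin n, (∑ a, Y (s a)) ^ 2 ≤ m * (n : ℝ) ^ m := this
        _ = (n : ℝ) ^ m * (1 / (m * ε ^ 2)) * (m ^ 2 * ε ^ 2) := by
            field_simp
    calc ∑ s : Fin m → Fin n, (Real.log (v + ε) - 1 / (m * ε ^ 2))
        = ∑ s : Fin m → Fin n, Real.log (v + ε) - ∑ s : Fin m → Fin n, 1 / (m * ε ^ 2) := by
          rw [Finset.sum_sub_distrib]
      _ ≤ ∑ s : Fin m → Fin n, Real.log (v + ε)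
          + ∑ s : Fin m → Fin n, ((∑ a, Y (s a)) / m) / (v + ε)
          - ∑ s : Fin m → Fin n, ((∑ a, Y (s a)) / m) ^ 2 / ε ^ 2 := by
          rw [hlin]; linarith
      _ = ∑ s : Fin m → Fin n, (Real.log (v + ε) + ((∑ a, Y (s a)) / m) / (v + ε)
            - ((∑ a, Y (s a)) / m) ^ 2 / ε ^ 2) := by
          rw [Finset.sum_sub_distrib, Finset.sum_add_distrib]
      _ ≤ _ := Finset.sum_le_sum fun s _ => step s
  have tot : ∑ s : Fin m → Fin n, ∑ p ∈ P, (Real.log ((∑ k, X p k) / n + ε) - 1 / (m * ε ^ 2)) ≤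
      ∑ s : Fin m → Fin n, ∑ p ∈ P, Real.log ((∑ a, X p (s a)) / m + ε) := by
    rw [Finset.sum_comm, Finset.sum_comm (s := (Finset.univ : Finset (Fin m → Fin n)))]
    exact Finset.sum_le_sum fun p _ => key p
  haveI : Nonempty (Fin n) := ⟨⟨0, hn⟩⟩
  obtain ⟨s, -, hs⟩ := Finset.exists_le_of_sum_le (Finset.univ_nonempty) tot
  refine ⟨s, ?_⟩
  rw [Finset.sum_sub_distrib, Finset.sum_const, nsmul_eq_mul] at hs
  have e1 : ∏ p ∈ P, ((∑ k, X p k) / n + ε) =
      Real.exp (∑ p ∈ P, Real.log ((∑ k, X p k) / n + ε)) := by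
    rw [Real.exp_sum]
    exact Finset.prod_congr rfl fun p _ => (Real.exp_log (lt_of_lt_of_le hε (hv p))).symm
  have e2 : ∏ p ∈ P, ((∑ a, X p (s a)) / m + ε) =
      Real.exp (∑ p ∈ P, Real.log ((∑ a, X p (s a)) / m + ε)) := by
    rw [Real.exp_sum]
    exact Finset.prod_congr rfl fun p _ => (Real.exp_log (lt_of_lt_of_le hε (hu p s))).symm
  rw [e1, e2, ← Real.exp_add]
  apply Real.exp_le_exp.mpr
  have : (P.card : ℝ) / (m * ε ^ 2) = P.card * (1 / (m * ε ^ 2)) := by ring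
  linarith

end N428.Coc
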